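import Pool.Agent.Y137.AS.Defs
import Pool.Agent.H916Y.Conv
import Pool.Agent.H916Y.Fams3

/-!
# From balanced characters to Tate characters of Fermat varieties of higher degree
-/

set_option linter.unusedSectionVars false

namespace Pool.Agent.Y137.AS

open Finset Pool.Agent.H916R2 Pool.Agent.H916T Pool.Agent.H916U Pool.Agent.H916Z Pool.Agent.H916Q
  Pool.Agent.H916Y

variable {p m : ℕ}

lemma Balanced.W_sum [NeZero m] (hp : p.Coprime m) {s : Multiset (ZMod m)}
    (hs : Balanced p m s) (t : (ZMod m)ˣ) : (s.map fun a => W p ((t : ZMod m) * a)).sum = 0 := by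
  rw [val_sum_eq hp s hs.1 t, hs.2.2 t, sub_self]

lemma balanced_of_W [NeZero m] (hp : p.Coprime m) {s : Multiset (ZMod m)}
    (h0 : (0 : ZMod m) ∉ s) (heven : Even (Multiset.card s))
    (h : ∀ t : (ZMod m)ˣ, (s.map fun a => W p ((t : ZMod m) * a)).sum = 0) : Balanced p m s := by
  refine ⟨h0, heven, fun t => ?_⟩
  have h1 := val_sum_eq hp s h0 t
  rw [h t] at h1
  have h2 := sub_eq_zero.mp h1.symm
  exact_mod_cast h2

lemma Balanced.isTate {s : Multiset (ZMod m)} (hs : Balanced p m s) (h : s.sum = 0) :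
    IsTate p m s := ⟨hs.1, hs.2.1, h, hs.2.2⟩

lemma IsTate.balanced {s : Multiset (ZMod m)} (hs : IsTate p m s) : Balanced p m s :=
  ⟨hs.1, hs.2.1, hs.2.2.2⟩

lemma balanced_iota {k M : ℕ} [NeZero m] [NeZero M] (hkm : k * m = M) (hpM : p.Coprime M)
    {s : Multiset (ZMod m)} (hs : Balanced p m s) :
    Balanced p M (s.map (iota k : ZMod m → ZMod M)) := by
  have hpm : p.Coprime m := Nat.Coprime.coprime_dvd_right (Dvd.intro_left _ hkm) hpM
  refine balanced_of_W hpM ?_ ?_ ?_
  · intro h
    obtain ⟨b, hb, hb0⟩ := Multiset.mem_map.mp h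
    rw [iota_eq_zero hkm hb0] at hb
    exact hs.1 hb
  · rw [Multiset.card_map]; exact hs.2.1
  · have h1 : Rel0 p s := fun t => hs.W_sum hpm t
    exact h1.iota hkm

lemma Balanced.add [NeZero m] (hpm : p.Coprime m) {s t : Multiset (ZMod m)}
    (hs : Balanced p m s) (ht : Balanced p m t) : Balanced p m (s + t) := by
  refine balanced_of_W hpm ?_ ?_ ?_
  · rw [Multiset.mem_add, not_or]; exact ⟨hs.1, ht.1⟩
  · rw [Multiset.card_add]; exact hs.2.1.add ht.2.1
  · intro u
    rw [Multiset.map_add, Multiset.sum_add, hs.W_sum hpm, ht.W_sum hpm, add_zero]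

lemma Balanced.neg [NeZero m] (hp : p.Coprime m) {s : Multiset (ZMod m)}
    (hs : Balanced p m s) : Balanced p m (s.map Neg.neg) := by
  apply balanced_of_W hp
  · intro h
    obtain ⟨b, hb, hb0⟩ := Multiset.mem_map.mp h
    exact hs.1 (by rwa [neg_eq_zero.mp hb0] at hb)
  · rw [Multiset.card_map]; exact hs.2.1
  · intro t
    rw [Multiset.map_map]
    have : (s.map ((fun a => W p ((t : ZMod m) * a)) ∘ Neg.neg)).sum =
        (s.map fun a => - W p ((t : ZMod m) * a)).sum := by
      congr 1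
      apply Multiset.map_congr rfl
      intro a _
      simp only [Function.comp_apply, mul_neg, W_neg]
    rw [this, Multiset.sum_map_neg, hs.W_sum hp t, neg_zero]

/-- The pair `{u, -p u}`. -/
lemma twisted [NeZero m] (hp : p.Coprime m) {u : ZMod m} (hu : u ≠ 0) :
    CurveTate p m {u, -((p : ZMod m) * u)} := by
  have hpu : (p : ZMod m) * u ≠ 0 := by
    intro h
    exact hu (((H916T.isUnit_p hp).mul_right_eq_zero).mp h)
  refine ⟨balanced_of_W hp ?_ ?_ ?_, by simp⟩
  · simp only [Multiset.insert_eq_cons, Multiset.mem_cons, Multiset.mem_singleton, not_or]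
    exact ⟨hu.symm, fun h => hpu (neg_eq_zero.mp h.symm)⟩
  · simp only [Multiset.insert_eq_cons, Multiset.card_cons, Multiset.card_singleton]
    decide
  · intro t
    simp only [Multiset.insert_eq_cons, Multiset.map_cons, Multiset.map_singleton,
      Multiset.sum_cons, Multiset.sum_singleton]
    rw [mul_neg, W_neg, mul_left_comm, W_mul]
    ring

/-- Every number is the product of a number with all prime divisors dividing `m` and of a number
prime to `m`. -/
lemma split_number (m : ℕ) : ∀ n : ℕ, 0 < n → ∃ N N' : ℕ, n = N * N' ∧ N'.Coprime m ∧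
    ∀ q : ℕ, q.Prime → q ∣ N → q ∣ m := by
  intro n
  induction n using Nat.strong_induction_on with
  | _ n ih =>
  intro hn
  by_cases h : n.Coprime m
  · exact ⟨1, n, (one_mul n).symm, h, fun q hq h1 => absurd (Nat.dvd_one.1 h1) hq.one_lt.ne'⟩
  · obtain ⟨q, hq, hqn, hqm⟩ := Nat.Prime.not_coprime_iff_dvd.1 h
    obtain ⟨d, rfl⟩ := hqn
    have hd : 0 < d := Nat.pos_of_ne_zero (by rintro rfl; simp at hn)
    obtain ⟨N, N', h1, h2, h3⟩ := ih d (by nlinarith [hq.two_le]) hd
    refine ⟨q * N, N', by rw [h1]; ring, h2, fun r hr hrN => ?_⟩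
    rcases (hr.dvd_mul).1 hrN with h4 | h4
    · rw [(Nat.prime_dvd_prime_iff_eq hr hq).1 h4]
      exact hqm
    · exact h3 r hr h4

/-- **Balanced characters become Tate characters after adding one pair `{u, -p u}` in a degree
`N * m` with the same prime divisors as `m`.** -/
theorem exists_tate [NeZero m] (hp : p.Prime) (hpm : p.Coprime m) {s : Multiset (ZMod m)}
    (hs : Balanced p m s) (hsum : s.sum ≠ 0) :
    ∃ N : ℕ, 0 < N ∧ p.Coprime N ∧ (∀ q : ℕ, q.Prime → q ∣ N → q ∣ m) ∧ ∀ M : ℕ, N * m = M →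
      ∃ u : ZMod M, u ≠ 0 ∧
        IsTate p M (s.map (iota N : ZMod m → ZMod M) + {u, -((p : ZMod M) * u)}) := by
  have hm : 0 < m := NeZero.pos m
  have hp1 : 0 < p - 1 := Nat.sub_pos_of_lt hp.one_lt
  obtain ⟨N, N', hNN, hN', hN⟩ := split_number m (p - 1) hp1
  have hN0 : 0 < N := Nat.pos_of_ne_zero (by rintro rfl; simp at hNN; omega)
  have hpN : p.Coprime N := by
    rw [hp.coprime_iff_not_dvd]
    intro h
    have h1 : p ∣ p - 1 := hNN ▸ h.mul_right N'
    exact absurd (Nat.le_of_dvd hp1 h1) (by omega)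
  refine ⟨N, hN0, hpN, hN, ?_⟩
  rintro M rfl
  have hM : 0 < N * m := Nat.mul_pos hN0 hm
  have hz : NeZero (N * m) := ⟨hM.ne'⟩
  have hpM : p.Coprime (N * m) := Nat.Coprime.mul_right hpN hpm
  have hu' : IsUnit (N' : ZMod m) := (ZMod.isUnit_iff_coprime N' m).mpr hN'
  obtain ⟨w, hw⟩ := hu'
  let v : ZMod m := ((w⁻¹ : (ZMod m)ˣ) : ZMod m) * s.sum
  have hv : (N' : ZMod m) * v = s.sum := by
    change (N' : ZMod m) * (((w⁻¹ : (ZMod m)ˣ) : ZMod m) * s.sum) = s.sum
    rw [← hw, ← mul_assoc, Units.mul_inv, one_mul]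
  have hv0 : v ≠ 0 := by
    intro h
    rw [h, mul_zero] at hv
    exact hsum hv.symm
  let u : ZMod (N * m) := (v.val : ZMod (N * m))
  have hu0 : u ≠ 0 := by
    intro h
    rw [ZMod.natCast_eq_zero_iff] at h
    have h1 : v.val < m := ZMod.val_lt v
    have h2 : v.val < N * m := lt_of_lt_of_le h1 (Nat.le_mul_of_pos_left m hN0)
    have h3 : v.val = 0 := Nat.eq_zero_of_dvd_of_lt h h2
    exact hv0 ((ZMod.val_eq_zero v).1 h3)
  have hpu : ((p : ZMod (N * m)) - 1) * u = iota N s.sum := by
    have h1 : ((p : ZMod (N * m)) - 1) = ((p - 1 : ℕ) : ZMod (N * m)) := by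
      rw [Nat.cast_sub hp.one_le, Nat.cast_one]
    have h2 : ((N' * v.val : ℕ) : ZMod m) = s.sum := by
      push_cast
      rw [ZMod.natCast_zmod_val]
      exact hv
    have h3 := iota_natCast (k := N) (m0 := m) (m := N * m) rfl (N' * v.val)
    rw [h2] at h3
    rw [h3, h1, hNN]
    change _ * ((v.val : ℕ) : ZMod (N * m)) = _
    push_cast
    ring
  refine ⟨u, hu0, ?_⟩
  have hb : Balanced p (N * m) (s.map (iota N : ZMod m → ZMod (N * m)) +
      {u, -((p : ZMod (N * m)) * u)}) :=
    (balanced_iota rfl hpM hs).add hpM (twisted hpM hu0).1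
  refine hb.isTate ?_
  rw [Multiset.sum_add, sum_iota rfl, ← hpu]
  simp only [Multiset.insert_eq_cons, Multiset.sum_cons, Multiset.sum_singleton]
  ring

/-- Monotony. -/
lemma Generated.mono {base base' : Multiset (ZMod m) → Prop} (h : ∀ s, base s → base' s)
    {s : Multiset (ZMod m)} (hs : H916T.Generated m base s) : H916T.Generated m base' s := by
  induction hs with
  | ofBase s hs => exact H916T.Generated.ofBase s (h s hs)
  | pair a ha => exact H916T.Generated.pair a ha
  | join s t _ _ ihs iht => exact H916T.Generated.join s t ihs iht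
  | cancel a s _ ih => exact H916T.Generated.cancel a s ih

lemma Known.neg [NeZero m] (hp : p.Coprime m) {s : Multiset (ZMod m)}
    (hs : CurveTate p m s ∨ SurfaceTate p m s) :
    CurveTate p m (s.map Neg.neg) ∨ SurfaceTate p m (s.map Neg.neg) := by
  rcases hs with hs | hs
  · exact Or.inl ⟨hs.1.neg hp, by rw [Multiset.card_map]; exact hs.2⟩
  · exact Or.inr (hs.neg hp)

/-- Known characters can be removed. -/
lemma remove_known {M : ℕ} [NeZero M] (hpM : p.Coprime M)
    (l : Multiset (Multiset (ZMod M))) (hl : ∀ x ∈ l, CurveTate p M x ∨ SurfaceTate p M x) :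
    ∀ s : Multiset (ZMod M), H916T.Generated M (Known p M) (s + l.sum) →
      H916T.Generated M (Known p M) s := by
  induction l using Multiset.induction_on with
  | empty => intro s h; simpa using h
  | cons a l ih =>
    intro s h
    apply cancel_multi a s
    rw [← add_assoc]
    have ha := hl a (Multiset.mem_cons_self _ _)
    have ha' : Known p M (a.map Neg.neg) := by
      rcases Known.neg hpM ha with h1 | h1
      · exact Or.inl h1
      · exact Or.inr (Or.inl h1)
    refine H916T.Generated.join _ _ ?_ (H916T.Generated.ofBase _ ha')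
    apply ih (fun x hx => hl x (Multiset.mem_cons_of_mem hx))
    rw [Multiset.sum_cons] at h
    rw [add_assoc]
    exact h

/-- The conclusion. -/
def ASConcl (p m : ℕ) (s : Multiset (ZMod m)) : Prop :=
  ∃ N : ℕ, 0 < N ∧ p.Coprime N ∧ ∀ M : ℕ, N * m = M →
      H916T.Generated M (Known p M) (s.map (iota N : ZMod m → ZMod M))

lemma asConcl_of_concl {s : Multiset (ZMod m)} (h : Concl p m s) : ASConcl p m s := by
  obtain ⟨N, hN, hpN, H⟩ := h
  exact ⟨N, hN, hpN, fun M hM => Generated.mono (fun t ht => Or.inr ht) (H M hM)⟩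

/-- Removing known characters at a higher level. -/
theorem asConcl_of_add {k M : ℕ} [NeZero m] [NeZero M] (hk : 0 < k) (hkm : k * m = M)
    (hpM : p.Coprime M) {s : Multiset (ZMod m)} (l : Multiset (Multiset (ZMod M)))
    (hl : ∀ x ∈ l, CurveTate p M x ∨ SurfaceTate p M x)
    (h : ASConcl p M (s.map (iota k : ZMod m → ZMod M) + l.sum)) : ASConcl p m s := by
  obtain ⟨N, hN, hpN, H⟩ := h
  have hpk : p.Coprime k := Nat.Coprime.coprime_dvd_right (Dvd.intro _ hkm) hpM
  refine ⟨N * k, Nat.mul_pos hN hk, Nat.Coprime.mul_right hpN hpk, ?_⟩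
  rintro M' rfl
  have hM0 : 0 < M := NeZero.pos M
  have hz : NeZero (N * k * m) := ⟨by
    rw [mul_assoc, hkm]
    exact (Nat.mul_pos hN hM0).ne'⟩
  have hNM : N * M = N * k * m := by rw [mul_assoc, hkm]
  have h1 := H (N * k * m) hNM
  rw [Multiset.map_add, map_multiset_sum] at h1
  have hpM' : p.Coprime (N * k * m) := by
    rw [← hNM]
    exact Nat.Coprime.mul_right hpN hpM
  have h2 := remove_known hpM' (l.map fun x => x.map (iota N : ZMod M → ZMod (N * k * m))) (by
    intro x hx
    obtain ⟨y, hy, rfl⟩ := Multiset.mem_map.1 hx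
    rcases hl y hy with h3 | h3
    · exact Or.inl ⟨balanced_iota hNM hpM' h3.1, by rw [Multiset.card_map]; exact h3.2⟩
    · exact Or.inr (surface_iota hNM hpM' h3)) _ h1
  rw [Multiset.map_map] at h2
  have h3 : (s.map ((iota N : ZMod M → ZMod (N * k * m)) ∘ (iota k : ZMod m → ZMod M))) =
      s.map (iota (N * k) : ZMod m → ZMod (N * k * m)) := by
    apply Multiset.map_congr rfl
    intro a _
    exact iota_comp hNM a
  rw [← h3]
  exact h2

/-- **The transfer from Fermat varieties to Artin-Schreier-Fermat varieties.** -/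
theorem transfer [NeZero m] (hp : p.Prime) (hpm : p.Coprime m) {s : Multiset (ZMod m)}
    (hs : Balanced p m s) (hne : s ≠ 0)
    (hF : ∀ N : ℕ, 0 < N → p.Coprime N → (∀ q : ℕ, q.Prime → q ∣ N → q ∣ m) → ∀ M : ℕ, N * m = M →
      ∀ P : Multiset (ZMod M), (P = 0 ∨ ∃ u : ZMod M, u ≠ 0 ∧ P = {u, -((p : ZMod M) * u)}) →
      IsTate p M (s.map (iota N : ZMod m → ZMod M) + P) →
      s.map (iota N : ZMod m → ZMod M) + P ≠ 0 →
      Concl p M (s.map (iota N : ZMod m → ZMod M) + P)) : ASConcl p m s := by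
  have hm : 0 < m := NeZero.pos m
  by_cases hsum : s.sum = 0
  · have h1 := hF 1 one_pos (Nat.coprime_one_right p)
      (fun q hq h => absurd (Nat.dvd_one.1 h) hq.one_lt.ne') m (one_mul m) 0 (Or.inl rfl)
    have h2 : s.map (iota 1 : ZMod m → ZMod m) = s := by
      conv_rhs => rw [← Multiset.map_id s]
      exact Multiset.map_congr rfl fun a _ => iota_one a
    rw [h2, add_zero] at h1
    exact asConcl_of_concl (h1 (hs.isTate hsum) hne)
  · obtain ⟨N, hN, hpN, hNm, H⟩ := exists_tate hp hpm hs hsum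
    have hM : 0 < N * m := Nat.mul_pos hN hm
    have hz : NeZero (N * m) := ⟨hM.ne'⟩
    have hpM : p.Coprime (N * m) := Nat.Coprime.mul_right hpN hpm
    obtain ⟨u, hu, hT⟩ := H (N * m) rfl
    have h1 := hF N hN hpN hNm (N * m) rfl _ (Or.inr ⟨u, hu, rfl⟩) hT (by
      intro h
      have h2 := congrArg Multiset.card h
      simp at h2)
    refine asConcl_of_add hN rfl hpM {{u, -((p : ZMod (N * m)) * u)}} ?_ ?_
    · intro x hx
      rw [Multiset.mem_singleton.1 hx]
      exact Or.inl (twisted hpM hu)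
    · rw [Multiset.sum_singleton]
      exact asConcl_of_concl h1

end Pool.Agent.Y137.AS
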