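import Mathlib
import Pool.Agent.H916T.Defs

/-!
# Tate characters of Artin-Schreier-Fermat varieties

Let `m` be prime to the prime `p`. The cohomology of the smooth affine variety
`y ^ p - y = c_1 x_1 ^ m + ... + c_n x_n ^ m` over an algebraic closure of the field with `p`
elements is concentrated in the degrees zero and `n`. In degree `n` it splits into lines indexed by
the non-trivial additive characters and by the tuples of `n` nonzero residues mod `m`, without any
condition on their sum. Frobenius acts on these lines by products of Gauss sums.
-/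

namespace Pool.Agent.Y137.AS

open Pool.Agent.H916T

/-- A balanced character of degree `m` in characteristic `p`: a multiset `s` of an even number of
nonzero residues modulo `m` such that for every unit `t` modulo `m` the representatives in
`{1, ..., m - 1}` of the residues `p ^ j * t * a`, where `a ∈ s` and `0 ≤ j < f`, `f` being the order
of `p` modulo `m`, add up to `f * m * |s| / 2`. There is no condition on the sum of `s`. -/
def Balanced (p m : ℕ) (s : Multiset (ZMod m)) : Prop :=
  (0 : ZMod m) ∉ s ∧ Even (Multiset.card s) ∧
    ∀ t : (ZMod m)ˣ,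
      2 * ∑ j ∈ Finset.range (orderOf (p : ZMod m)),
          (s.map fun a => ((p : ZMod m) ^ j * ((t : ZMod m) * a)).val).sum =
        orderOf (p : ZMod m) * (m * Multiset.card s)

/-- The balanced characters with two entries: the Tate classes on products of two curves
`y ^ p - y = x ^ m`. -/
def CurveTate (p m : ℕ) (s : Multiset (ZMod m)) : Prop :=
  Balanced p m s ∧ Multiset.card s = 2

/-- The characters from which the others will be generated: those of products of two curves, those
of Fermat surfaces, and the standard characters. -/
def Known (p m : ℕ) (s : Multiset (ZMod m)) : Prop :=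
  CurveTate p m s ∨ SurfaceTate p m s ∨ ∃ q : ℕ, q.Prime ∧ q ∣ m ∧ Standard q m s

/-- Linked residues: two nonzero residues `a`, `b` modulo `m` such that the (additive) orders of `a`
and `b` have the same prime divisors, or both orders are even, or, for every unit `t` modulo `m`,
the representatives in `{1, ..., m - 1}` of the residues `p ^ j * t * a`, `0 ≤ j < f`, `f` being the
order of `p` modulo `m`, have the same sum as those of the residues `p ^ j * t * b`. -/
def Linked (p m : ℕ) (a b : ZMod m) : Prop :=
  a ≠ 0 ∧ b ≠ 0 ∧
    ((addOrderOf a).primeFactors = (addOrderOf b).primeFactors ∨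
      (Even (addOrderOf a) ∧ Even (addOrderOf b)) ∨
      ∀ t : (ZMod m)ˣ,
        ∑ j ∈ Finset.range (orderOf (p : ZMod m)), ((p : ZMod m) ^ j * ((t : ZMod m) * a)).val =
          ∑ j ∈ Finset.range (orderOf (p : ZMod m)), ((p : ZMod m) ^ j * ((t : ZMod m) * b)).val)

/-- All prime divisors of `m` are `2`, `a` or `b`. -/
def PrimesIn (m a b : ℕ) : Prop := ∀ r : ℕ, r.Prime → r ∣ m → r = 2 ∨ r = a ∨ r = b

/-- The good degrees: prime powers; numbers whose prime divisors lie in `{2, 3, 5}`, in `{2, 3, 7}`,
or in `{2, q}` for a prime `q` congruent to `7` modulo `8`; odd numbers whose prime divisors lie in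
`{3, 11}` or in `{3, 13}`. -/
def GoodDegree (m : ℕ) : Prop :=
  IsPrimePow m ∨ PrimesIn m 3 5 ∨ PrimesIn m 3 7 ∨
    (∃ q : ℕ, q.Prime ∧ q % 8 = 7 ∧ PrimesIn m q q) ∨
    (Odd m ∧ (PrimesIn m 3 11 ∨ PrimesIn m 3 13))

end Pool.Agent.Y137.AS
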