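import Pool.Agent.Y137.AS.Core

/-!
# The parity criterion for Artin-Schreier-Fermat varieties, and the good degrees
-/

set_option linter.unusedSectionVars false

namespace Pool.Agent.Y137.AS

open Finset Pool.Agent.H916R2 Pool.Agent.H916T Pool.Agent.H916U Pool.Agent.H916Z Pool.Agent.H916Q
  Pool.Agent.H916Y

variable {p m : ℕ}

lemma link_iota {k M : ℕ} [NeZero m] [NeZero M] (hkm : k * m = M) {a b : ZMod m}
    (h : Link p a b) : Link p (iota k a : ZMod M) (iota k b : ZMod M) := by
  obtain ⟨ha, hb, h⟩ := h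
  refine ⟨fun h1 => ha (iota_eq_zero hkm h1), fun h1 => hb (iota_eq_zero hkm h1), ?_⟩
  rw [addOrderOf_iota hkm, addOrderOf_iota hkm]
  rcases h with h | h | h
  · exact Or.inl h
  · exact Or.inr (Or.inl h)
  · refine Or.inr (Or.inr fun t => ?_)
    obtain ⟨r, hr⟩ := W_iota (k := k) (m0 := m) (m := M) (p := p) hkm
    rw [unit_iota hkm, unit_iota hkm, hr, hr, h]

lemma eqv_iota {k M : ℕ} [NeZero m] [NeZero M] (hkm : k * m = M) {a b : ZMod m}
    (h : Relation.EqvGen (Link p) a b) :
    Relation.EqvGen (Link p) (iota k a : ZMod M) (iota k b : ZMod M) := by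
  induction h with
  | rel x y h => exact Relation.EqvGen.rel _ _ (link_iota hkm h)
  | refl x => exact Relation.EqvGen.refl _
  | symm x y _ ih => exact ih.symm
  | trans x y z _ _ ih1 ih2 => exact ih1.trans _ _ _ ih2

lemma W_val {p m : ℕ} [NeZero m] (hpm : p.Coprime m) {a : ZMod m} (ha : a ≠ 0) (t : (ZMod m)ˣ) :
    W p ((t : ZMod m) * a) =
      2 * ((∑ j ∈ Finset.range (orderOf (p : ZMod m)),
        ((p : ZMod m) ^ j * ((t : ZMod m) * a)).val : ℕ) : ℤ) - orderOf (p : ZMod m) * m := by
  unfold W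
  have hu := isUnit_p hpm
  have h1 : ∀ j ∈ Finset.range (orderOf (p : ZMod m)),
      H916R2.saw ((p : ZMod m) ^ j * ((t : ZMod m) * a)) =
        2 * ((((p : ZMod m) ^ j * ((t : ZMod m) * a)).val : ℕ) : ℤ) - m := by
    intro j _
    apply H916R2.saw_of_ne_zero
    intro h
    have h2 := ((hu.pow j).mul_right_eq_zero).mp h
    exact ha ((t.isUnit.mul_right_eq_zero).mp h2)
  rw [Finset.sum_congr rfl h1, Finset.sum_sub_distrib, ← Finset.mul_sum]
  push_cast
  simp

lemma linked_iff {p m : ℕ} [NeZero m] (hpm : p.Coprime m) (a b : ZMod m) :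
    Link p a b ↔ Linked p m a b := by
  unfold Link Linked
  constructor
  · rintro ⟨ha, hb, h | ⟨h1, h2⟩ | h⟩
    · exact ⟨ha, hb, Or.inl h⟩
    · exact ⟨ha, hb, Or.inr (Or.inl ⟨even_iff_two_dvd.mpr h1, even_iff_two_dvd.mpr h2⟩)⟩
    · refine ⟨ha, hb, Or.inr (Or.inr fun t => ?_)⟩
      have h1 := h t
      rw [W_val hpm ha, W_val hpm hb] at h1
      have h2 : ((∑ j ∈ Finset.range (orderOf (p : ZMod m)),
          ((p : ZMod m) ^ j * ((t : ZMod m) * a)).val : ℕ) : ℤ) =
        ((∑ j ∈ Finset.range (orderOf (p : ZMod m)),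
          ((p : ZMod m) ^ j * ((t : ZMod m) * b)).val : ℕ) : ℤ) := by linarith
      exact_mod_cast h2
  · rintro ⟨ha, hb, h | ⟨h1, h2⟩ | h⟩
    · exact ⟨ha, hb, Or.inl h⟩
    · exact ⟨ha, hb, Or.inr (Or.inl ⟨even_iff_two_dvd.mp h1, even_iff_two_dvd.mp h2⟩)⟩
    · refine ⟨ha, hb, Or.inr (Or.inr fun t => ?_)⟩
      rw [W_val hpm ha, W_val hpm hb, h t]

open scoped Classical in
theorem parity_lift {k M : ℕ} [NeZero m] [NeZero M] (hkm : k * m = M) {s : Multiset (ZMod m)}
    (hpar : ∀ a : ZMod m, Even (s.countP (fun b => Relation.EqvGen (Link p) a b))) (a' : ZMod M) :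
    Even ((s.map (iota k : ZMod m → ZMod M)).countP (fun b => Relation.EqvGen (Link p) a' b)) := by
  rw [Multiset.countP_map, ← Multiset.countP_eq_card_filter]
  refine even_of_key (fun a : ZMod m => {b : ZMod m | Relation.EqvGen (Link p) a b}) _ _ s rfl ?_ ?_
  · intro K
    by_cases hK : ∃ a0 : ZMod m, {b : ZMod m | Relation.EqvGen (Link p) a0 b} = K
    · obtain ⟨a0, rfl⟩ := hK
      have h1 : s.countP (fun a => {b : ZMod m | Relation.EqvGen (Link p) a b} =
          {b : ZMod m | Relation.EqvGen (Link p) a0 b}) =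
          s.countP (fun b => Relation.EqvGen (Link p) a0 b) := by
        apply Multiset.countP_congr rfl
        intro a _
        simp only [eq_iff_iff]
        constructor
        · intro h
          have h2 : a0 ∈ {b : ZMod m | Relation.EqvGen (Link p) a0 b} :=
            Relation.EqvGen.refl _
          rw [← h] at h2
          exact Relation.EqvGen.symm _ _ h2
        · intro h
          ext b
          exact ⟨fun h2 => h.trans _ _ _ h2, fun h2 => (h.symm _ _).trans _ _ _ h2⟩
      rw [h1]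
      exact hpar a0
    · have h1 : s.countP (fun a => {b : ZMod m | Relation.EqvGen (Link p) a b} = K) = 0 := by
        rw [Multiset.countP_eq_zero]
        intro a _ h
        exact hK ⟨a, h⟩
      rw [h1]
      exact Even.zero
  · intro a _ b _ hab
    have h1 : Relation.EqvGen (Link p) a b := by
      have h2 : b ∈ {c : ZMod m | Relation.EqvGen (Link p) b c} := Relation.EqvGen.refl _
      have h3 : {c : ZMod m | Relation.EqvGen (Link p) a c} =
        {c : ZMod m | Relation.EqvGen (Link p) b c} := hab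
      rw [← h3] at h2
      exact h2
    have h2 := eqv_iota hkm h1
    exact ⟨fun h => h.trans _ _ _ h2, fun h => h.trans _ _ _ (h2.symm _ _)⟩

open scoped Classical in
/-- **The parity theorem for balanced characters.** -/
theorem as_parity (hp : p.Prime) (hm : 0 < m) (hpm : p.Coprime m) {s : Multiset (ZMod m)}
    (hs : Balanced p m s) (hne : s ≠ 0)
    (hpar : ∀ a : ZMod m, Even (s.countP (fun b => Relation.EqvGen (Link p) a b))) :
    ASConcl p m s := by
  have hz : NeZero m := ⟨hm.ne'⟩
  refine transfer hp hpm hs hne ?_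
  rintro N hN hpN - M rfl P hP hT hne'
  have hM : 0 < N * m := Nat.mul_pos hN hm
  have hzM : NeZero (N * m) := ⟨hM.ne'⟩
  have hpM : p.Coprime (N * m) := Nat.Coprime.mul_right hpN hpm
  refine parity_main hp hM hpM hT hne' fun a => ?_
  rw [Multiset.countP_add]
  refine (parity_lift rfl hpar a).add ?_
  rcases hP with rfl | ⟨u, hu, rfl⟩
  · rw [Multiset.countP_zero]
    exact Even.zero
  · refine link_of_sEven (sEven_two ?_) a
    have hinj : Function.Injective (fun x : ZMod (N * m) => (p : ZMod (N * m)) * x) :=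
      (H916T.isUnit_p hpM).mul_right_injective
    rw [addOrderOf_neg]
    congr 1
    let φ : ZMod (N * m) →+ ZMod (N * m) := AddMonoidHom.mulLeft (p : ZMod (N * m))
    exact (addOrderOf_injective φ hinj u).symm

/-- generated multisets are even up to curves and surfaces -/
lemma sEven_of_known {M : ℕ} [NeZero M] {x : Multiset (ZMod M)}
    (h : H916T.Generated M (Known p M) x) :
    ∃ l : Multiset (Multiset (ZMod M)), (∀ y ∈ l, CurveTate p M y ∨ SurfaceTate p M y) ∧
      SEven (x + l.sum) := by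
  induction h with
  | ofBase s hs =>
    rcases hs with hs | hs | ⟨q, hq, hqM, hs⟩
    · refine ⟨{s}, fun y hy => (Multiset.mem_singleton.mp hy) ▸ Or.inl hs, fun K => ?_⟩
      rw [Multiset.sum_singleton, Multiset.countP_add]
      exact ⟨_, rfl⟩
    · refine ⟨{s}, fun y hy => (Multiset.mem_singleton.mp hy) ▸ Or.inr hs, fun K => ?_⟩
      rw [Multiset.sum_singleton, Multiset.countP_add]
      exact ⟨_, rfl⟩
    · refine ⟨0, by simp, ?_⟩
      rw [Multiset.sum_zero, add_zero]
      exact sEven_standard hq hqM hs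
  | pair a ha =>
    refine ⟨0, by simp, ?_⟩
    rw [Multiset.sum_zero, add_zero]
    exact sEven_pair a
  | join s t _ _ ihs iht =>
    obtain ⟨l1, h1, h1'⟩ := ihs
    obtain ⟨l2, h2, h2'⟩ := iht
    refine ⟨l1 + l2, ?_, ?_⟩
    · intro y hy
      rcases Multiset.mem_add.mp hy with hy | hy
      · exact h1 y hy
      · exact h2 y hy
    · rw [Multiset.sum_add]
      have : s + t + (l1.sum + l2.sum) = (s + l1.sum) + (t + l2.sum) := by abel
      rw [this]
      exact h1'.add h2'
  | cancel a s _ ih =>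
    obtain ⟨l, hl, hl'⟩ := ih
    refine ⟨l, hl, fun K => ?_⟩
    have h1 := hl' K
    have h2 := sEven_pair a K
    have h3 : a ::ₘ -a ::ₘ s + l.sum = {a, -a} + (s + l.sum) := by
      rw [Multiset.insert_eq_cons, Multiset.cons_add, Multiset.cons_add, Multiset.cons_add,
        Multiset.singleton_add]
    rw [h3, Multiset.countP_add] at h1
    exact (Nat.even_add.mp h1).mp h2

lemma balanced_zero [NeZero m] (hpm : p.Coprime m) : Balanced p m (0 : Multiset (ZMod m)) := by
  refine balanced_of_W hpm ?_ ?_ ?_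
  · simp
  · simp
  · intro u; simp

lemma balanced_sum [NeZero m] (hpm : p.Coprime m) (l : Multiset (Multiset (ZMod m)))
    (hl : ∀ x ∈ l, CurveTate p m x ∨ SurfaceTate p m x) : Balanced p m l.sum := by
  induction l using Multiset.induction_on with
  | empty => simpa using balanced_zero hpm
  | cons a l ih =>
    rw [Multiset.sum_cons]
    refine Balanced.add hpm ?_ (ih fun x hx => hl x (Multiset.mem_cons_of_mem hx))
    rcases hl a (Multiset.mem_cons_self _ _) with h | h
    · exact h.1
    · exact IsTate.balanced h.1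

open scoped Classical in
/-- **The parity criterion.** -/
theorem as_iff (hp : p.Prime) (hm : 0 < m) (hpm : p.Coprime m) {s : Multiset (ZMod m)}
    (hs : Balanced p m s) (hne : s ≠ 0) :
    (∃ N : ℕ, 0 < N ∧ p.Coprime N ∧
      H916T.Generated (N * m) (Known p (N * m)) (s.map (iota N : ZMod m → ZMod (N * m)))) ↔
    ∃ N : ℕ, 0 < N ∧ p.Coprime N ∧ ∃ l : Multiset (Multiset (ZMod (N * m))),
      (∀ t ∈ l, CurveTate p (N * m) t ∨ SurfaceTate p (N * m) t) ∧ ∀ a : ZMod (N * m),
        Even ((s.map (iota N : ZMod m → ZMod (N * m)) + l.sum).countP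
          (fun b => Relation.EqvGen (Link p) a b)) := by
  have hz : NeZero m := ⟨hm.ne'⟩
  constructor
  · rintro ⟨N, hN, hpN, h⟩
    have hz : NeZero (N * m) := ⟨(Nat.mul_pos hN hm).ne'⟩
    obtain ⟨l, hl, hl'⟩ := sEven_of_known h
    exact ⟨N, hN, hpN, l, hl, link_of_sEven hl'⟩
  · rintro ⟨k, hk, hpk, l, hl, hpar⟩
    have hM : 0 < k * m := Nat.mul_pos hk hm
    have hzM : NeZero (k * m) := ⟨hM.ne'⟩
    have hpM : p.Coprime (k * m) := Nat.Coprime.mul_right hpk hpm
    have h1 : ASConcl p (k * m) (s.map (iota k : ZMod m → ZMod (k * m)) + l.sum) := by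
      refine as_parity hp hM hpM ((balanced_iota rfl hpM hs).add hpM (balanced_sum hpM l hl)) ?_ hpar
      intro h
      have h2 := congrArg Multiset.card h
      rw [Multiset.card_add, Multiset.card_map, Multiset.card_zero] at h2
      have h3 : Multiset.card s = 0 := by omega
      exact hne (Multiset.card_eq_zero.1 h3)
    obtain ⟨N, hN, hpN, H⟩ := asConcl_of_add hk rfl hpM l hl h1
    exact ⟨N, hN, hpN, H (N * m) rfl⟩

theorem good (hp : p.Prime) (hm : 0 < m) (hpm : p.Coprime m) (hdeg : GoodDegree m)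
    {s : Multiset (ZMod m)} (hs : Balanced p m s) (hne : s ≠ 0) : ASConcl p m s := by
  classical
  have hz : NeZero m := ⟨hm.ne'⟩
  have key : ∀ {a b : ℕ}, PrimesIn m a b → ∀ {N : ℕ}, (∀ q : ℕ, q.Prime → q ∣ N → q ∣ m) →
      PrimesIn (N * m) a b := by
    intro a b h N hN r hr hrN
    rcases (hr.dvd_mul).1 hrN with h1 | h1
    · exact h r hr (hN r hr h1)
    · exact h r hr h1
  have key4 : Odd m → ∀ {N : ℕ}, (∀ q : ℕ, q.Prime → q ∣ N → q ∣ m) → ¬ 4 ∣ N * m := by
    intro hodd N hN h4
    have h2 : 2 ∣ N * m := (by norm_num : (2 : ℕ) ∣ 4).trans h4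
    have h3 : 2 ∣ m := by
      rcases (Nat.prime_two.dvd_mul).1 h2 with h1 | h1
      · exact hN 2 Nat.prime_two h1
      · exact h1
    exact (Nat.not_even_iff_odd.2 hodd) (even_iff_two_dvd.2 h3)
  rcases hdeg with h | h | h | ⟨q, hq, hq7, h⟩ | ⟨hodd, h | h⟩
  · -- prime powers
    refine as_parity hp hm hpm hs hne fun a => ?_
    obtain ⟨q, k, hq, hk, hqm⟩ := h
    have hq' : q.Prime := hq.nat_prime
    have hsup : ∀ b : ZMod m, b ≠ 0 → (addOrderOf b).primeFactors = {q} := by
      intro b hb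
      have h1 : addOrderOf b ∣ q ^ k := hqm ▸ addOrderOf_dvd_level b
      obtain ⟨j, _, hj⟩ := (Nat.dvd_prime_pow hq').1 h1
      have hj0 : j ≠ 0 := by
        rintro rfl
        rw [pow_zero] at hj
        exact hb (AddMonoid.addOrderOf_eq_one_iff.mp hj)
      rw [hj]
      exact Nat.primeFactors_prime_pow hj0 hq'
    refine link_of_sEven (sEven_const (K0 := {q}) hs.2.1 fun b hb => ?_) a
    exact hsup b fun h0 => hs.1 (h0 ▸ hb)
  · refine transfer hp hpm hs hne ?_
    rintro N hN hpN hNm M rfl P _ hT hne'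
    exact all235 hp (Nat.mul_pos hN hm) (Nat.Coprime.mul_right hpN hpm) (key h hNm) hT hne'
  · refine transfer hp hpm hs hne ?_
    rintro N hN hpN hNm M rfl P _ hT hne'
    exact all237 hp (Nat.mul_pos hN hm) (Nat.Coprime.mul_right hpN hpm) (key h hNm) hT hne'
  · refine transfer hp hpm hs hne ?_
    rintro N hN hpN hNm M rfl P _ hT hne'
    exact allq7 hp (Nat.mul_pos hN hm) (Nat.Coprime.mul_right hpN hpm) hq hq7
      (fun r hr hrm => (key h hNm r hr hrm).imp id (fun h' => h'.elim id id)) hT hne'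
  · refine transfer hp hpm hs hne ?_
    rintro N hN hpN hNm M rfl P _ hT hne'
    exact all2311 hp (Nat.mul_pos hN hm) (key4 hodd hNm) (Nat.Coprime.mul_right hpN hpm)
      (key h hNm) hT hne'
  · refine transfer hp hpm hs hne ?_
    rintro N hN hpN hNm M rfl P _ hT hne'
    exact all2313 hp (Nat.mul_pos hN hm) (key4 hodd hNm) (Nat.Coprime.mul_right hpN hpm)
      (key h hNm) hT hne'

open scoped Classical in
/-- **The theorem.** -/
theorem main (hp : p.Prime) (hm : 0 < m) (hpm : p.Coprime m) (s : Multiset (ZMod m))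
    (hs : Balanced p m s) (hne : s ≠ 0) :
    ((∃ N : ℕ, 0 < N ∧ p.Coprime N ∧ H916T.Generated (N * m) (Known p (N * m))
        (s.map fun a => ((N * a.val : ℕ) : ZMod (N * m)))) ↔
      ∃ N : ℕ, 0 < N ∧ p.Coprime N ∧ ∃ l : Multiset (Multiset (ZMod (N * m))),
        (∀ t ∈ l, CurveTate p (N * m) t ∨ SurfaceTate p (N * m) t) ∧ ∀ a : ZMod (N * m),
          Even (Multiset.card (((s.map fun b => ((N * b.val : ℕ) : ZMod (N * m))) + l.sum).filter
            fun b => Relation.EqvGen (Linked p (N * m)) a b))) ∧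
    (GoodDegree m → ∃ N : ℕ, 0 < N ∧ p.Coprime N ∧ H916T.Generated (N * m) (Known p (N * m))
        (s.map fun a => ((N * a.val : ℕ) : ZMod (N * m)))) := by
  have hz : NeZero m := ⟨hm.ne'⟩
  constructor
  · refine (as_iff hp hm hpm hs hne).trans ?_
    refine exists_congr fun N => and_congr_right fun hN => and_congr_right fun hpN =>
      exists_congr fun l => and_congr_right fun _ => forall_congr' fun a => ?_
    have hzM : NeZero (N * m) := ⟨(Nat.mul_pos hN hm).ne'⟩
    have hE : Link p = Linked p (N * m) := by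
      funext a b
      exact propext (linked_iff (Nat.Coprime.mul_right hpN hpm) a b)
    rw [← hE, ← Multiset.countP_eq_card_filter]
    rfl
  · intro hdeg
    obtain ⟨N, hN, hpN, H⟩ := good hp hm hpm hdeg hs hne
    exact ⟨N, hN, hpN, H (N * m) rfl⟩

end Pool.Agent.Y137.AS
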